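import Pool.Agent.H45.UZ.TarP

/-! # LF: faces of worlds are worlds -/

set_option linter.unusedVariables false

open Ordinal Order Set
open scoped ZFSet

namespace SE.UZ

open SF

theorem LF.rst_empty (s : V) : rst s ∅ = ∅ := by
  unfold rst
  ext z
  rw [ZFSet.mem_sep]
  constructor
  · rintro ⟨h, -⟩
    exact h
  · intro h
    exact absurd h (ZFSet.notMem_empty z)

theorem pf_LF : T_PWE → T_PSJ → T_POA → T_PHA → T_PLW → T_PW2 → T_QRN → T_BL → T_BM → T_BD →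
    T_LF := by
  intro PWE PSJ POA PHA PLW PW2 QRN BL BM BD D κ b σ hc hPI
  obtain ⟨am, ok, -⟩ := hc
  have DO : D.Ok := am.ok
  obtain ⟨-, -, pl3, pl4, pl5⟩ := PLW D κ am b ok
  obtain ⟨pw2, -⟩ := PW2 D κ am b ok
  have key : ∀ e, e ≤ σ → b.PF D e := by
    intro e
    induction e using WellFoundedLT.induction with
    | ind e ih =>
    intro he C h0 B h hC hh0 hB hL
    have iw : b.Iw D (b.Wd D) e B h := (PWE b D e B h).1 hB
    refine (PWE b D e C h0).2 ?_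
    have hle := hL.le
    obtain ⟨oC, oB, csub⟩ := ok.leO C B hle
    have csB : CS D (b.u B) := ok.cs B oB
    have csC : CS D (b.u C) := ok.cs C oC
    have nB : D.N (b.u B) := DO.zfc.trans _ DO.hN _ csB.h
    have nC : D.N (b.u C) := DO.zfc.trans _ DO.hN _ csC.h
    have trC : Tr (b.u C) := fun i hi => (csC.c i hi).2
    -- extension of filters
    have hext : ∀ G0, D.Gn (b.u C) G0 → ∃ G, D.Gn (b.u B) G ∧ gs G (b.u C) = G0 := by
      intro G0 hG0
      have hemp : (∅ : V) ∈ G0 := by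
        obtain ⟨p, hp⟩ := hG0.1.ne
        refine hG0.1.up p hp ∅ ?_
        rw [BD.2.2.2.2.2.2.1]
        exact ⟨hG0.1.sub hp, BD.1 _ _, (BD.2.2.2.1 _ _ _ (hG0.1.sub hp)).2⟩
      obtain ⟨G, h1, -, h2⟩ := BM D DO (b.u C) (b.u B) G0 ∅ nC nB csB.c csub trC hG0 (BD.1 _ _)
        (by rw [LF.rst_empty]; exact hemp)
      exact ⟨G, h1, h2⟩
    -- restriction of reals
    have hRR : ∀ G, D.Gn (b.u B) G → ∀ s, s ⊆ b.u C → ∀ X, RR D s (gs G (b.u C)) X ↔ RR D s G X := by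
      intro G hG s hs X
      have h1 := ((BL D DO (b.u B) G nB csB.c hG).2 (b.u C) nC csub trC).2.2.2.2.2.2 s hs
      unfold RR
      rw [h1]
    have hGC : ∀ G, D.Gn (b.u B) G → D.Gn (b.u C) (gs G (b.u C)) := fun G hG =>
      ((BL D DO (b.u B) G nB csB.c hG).2 (b.u C) nC csub trC).1
    have hmono : ∀ G, D.Gn (b.u B) G → ∀ X, RR D (b.u C) G X → RR D (b.u B) G X := by
      intro G hG X hX
      exact (QRN D DO (b.u B) G (b.u C) nB csB.c hG nC csub trC).2.2.1 X hX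
    -- values of `h0`
    have hA := PHA D DO (b.u C) (b.u B) h0 e nC csC.c nB csB.c csub hh0
    have hE0 : ∀ G, D.Gn (b.u B) G → ∀ X y d, (Ent h0 G X y d ↔ Ent h0 (gs G (b.u C)) X y d) :=
      fun G hG X y d => ((hA.1 G hG).1 X y d).1
    have hE1 : ∀ G, D.Gn (b.u B) G → ∀ X y d, Ent h0 G X y d →
        RR D (b.u C) G X ∧ RR D (b.u C) G y ∧ d < e := fun G hG X y d hx =>
      ⟨(((hA.1 G hG).1 X y d).2 hx).1, (((hA.1 G hG).1 X y d).2 hx).2.1,
        (((hA.1 G hG).1 X y d).2 hx).2.2.1⟩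
    have hE2 : ∀ G, D.Gn (b.u B) G → ∀ X y d, Ent h0 (gs G (b.u C)) X y d →
        Ent h G X y d ∧ RR D (b.u C) G X ∧ RR D (b.u C) G y ∧ d < e := by
      intro G hG X y d hx
      have h1 := (hE0 G hG X y d).2 hx
      obtain ⟨h2, h3, h4⟩ := hE1 G hG X y d h1
      exact ⟨((hL.e G hG X h2 y d).1 ⟨h1, h4⟩).1, h2, h3, h4⟩
    have hE3 : ∀ G, D.Gn (b.u B) G → ∀ X, RR D (b.u C) G X → ∀ y d, d < e →
        (Ent h0 (gs G (b.u C)) X y d ↔ Ent h G X y d) := by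
      intro G hG X hX y d hd
      constructor
      · intro hx
        exact (hE2 G hG X y d hx).1
      · intro hx
        exact (hE0 G hG X y d).1 ((hL.e G hG X hX y d).2 ⟨hx, hd⟩).1
    -- restrictions
    have hres : ∀ d, d < e → His D (b.u C) (hr h0 d) d ∧ b.Wd D d C (hr h0 d) ∧
        b.Wd D d B (hr h d) ∧ b.LW D d C (hr h0 d) B (hr h d) := by
      intro d hd
      have h1 : His D (b.u C) (hr h0 d) d := (hA.2.1 d).2.1
      have h2 : b.Wd D d B (hr h d) := pw2 e d B h hd.le hB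
      have h3 : b.LW D d C (hr h0 d) B (hr h d) :=
        (pl4 e e d d d C h0 B h hh0 iw.wo.hs le_rfl le_rfl).2 (pl3 e d C h0 B h hd.le hL)
      exact ⟨h1, ih d hd (hd.le.trans he) C (hr h0 d) B (hr h d) hC h1 h2 h3, h2, h3⟩
    have hco := (POA D κ am b ok C hC).2.2
    have hprm : ∀ G, D.Gn (b.u B) G → ∀ i ∈ b.u C, prm (gs G (b.u C)) i = prm G i ∧
        ev (gs G (b.u C)) (lZ i) = ev G (lZ i) := by
      intro G hG i hi
      have h1 := (QRN D DO (b.u B) G (b.u C) nB csB.c hG nC csub trC)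
      have h2 := h1.2.2.2.2.2.2.2.2.2.2.2.2.2.2 i hi
      exact ⟨h2.1, h2.2.1⟩
    refine ⟨⟨hC, hh0, ?_⟩, ?_, ?_, ?_, ?_, ?_⟩
    · -- functional
      intro G0 hG0 X y y' d d' h1 h2
      obtain ⟨G, hG, rfl⟩ := hext G0 hG0
      exact iw.wo.f G hG X y y' d d' (hE2 G hG X y d h1).1 (hE2 G hG X y' d' h2).1
    · -- w0
      intro j hj hcj
      obtain ⟨-, hvs, -, nv, tv, csv, -⟩ := hco j hj hcj
      obtain ⟨h00, hh00, hl⟩ := iw.w0 j (csub hj) hcj
      refine ⟨h00, hh00, ?_⟩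
      intro G0 hG0 X hX y d
      obtain ⟨G, hG, rfl⟩ := hext G0 hG0
      have hXG : RR D (vw j) G X := (hRR G hG _ hvs X).1 hX
      have hXC : RR D (b.u C) G X := by
        have h1 := (QRN D DO (b.u B) G (vw j) nB csB.c hG nv (fun z hz => csub (hvs hz)) tv)
        exact h1.2.2.2.2.2.2.2.1 (b.u C) nC hvs csub trC X hXG
      have e1 := (((PHA D DO (vw j) (b.u B) h00 _ nv csv.c nB csB.c
        (fun z hz => csub (hvs hz)) hh00).1 G hG).1 X y d).1
      have e2 := (((PHA D DO (vw j) (b.u C) h00 _ nv csv.c nC csC.c hvs hh00).1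
        (gs G (b.u C)) (hGC G hG)).1 X y d).1
      have e3 : gs (gs G (b.u C)) (vw j) = gs G (vw j) :=
        ((BL D DO (b.u B) G nB csB.c hG).2 (b.u C) nC csub trC).2.2.2.2.2.2 _ hvs
      rw [e2, e3, ← e1, hl G hG X hXG y d]
      have hsj : b.sj D (b.Wd D) e (tm j) ≤ e := (PSJ b D (b.Wd D)).2.2.2.2.2.2.1 e (tm j)
      constructor
      · rintro ⟨h1, h2⟩
        exact ⟨(hE3 G hG X hXC y d (lt_of_lt_of_le h2 hsj)).2 h1, h2⟩
      · rintro ⟨h1, h2⟩
        exact ⟨(hE3 G hG X hXC y d (lt_of_lt_of_le h2 hsj)).1 h1, h2⟩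
    · -- w1
      intro j hj hcj G0 hG0 X y d hx
      obtain ⟨G, hG, rfl⟩ := hext G0 hG0
      rw [(hprm G hG j hj).2]
      exact iw.w1 j (csub hj) hcj G hG X y d (hE2 G hG X y d hx).1
    · -- w2
      intro d hd hnl G0 hG0 X hX
      obtain ⟨G, hG, rfl⟩ := hext G0 hG0
      obtain ⟨hh, w1, w2, lw⟩ := hres d hd
      have hXG : RR D (b.u C) G X := (hRR G hG _ (fun z hz => hz) X).1 hX
      have h1 := iw.w2 d hd hnl G hG X (hmono G hG X hXG)
      have h2 : (∃ y, Ent h0 (gs G (b.u C)) X y d) ↔ ∃ y, Ent h G X y d :=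
        exists_congr fun y => hE3 G hG X hXG y d hd
      have h3 : Dcc (hr h0 d) (gs G (b.u C)) X ↔ Dcc (hr h d) G X := by
        rw [← pl5 e e e C h0 B h hh0 iw.wo.hs hL G hG X hXG d hd.le]
        exact ((((PHA D DO (b.u C) (b.u B) (hr h0 d) d nC csC.c nB csB.c csub hh).1 G hG).2 X)).symm
      have h4 := (hPI d (lt_of_lt_of_le hd he) C (hr h0 d) B (hr h d) w1 w2 lw G hG X hXG).2.2
      rw [h2, h1, h3, h4]
    · -- w2'
      intro d hd G0 hG0 X y hx
      obtain ⟨G, hG, rfl⟩ := hext G0 hG0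
      obtain ⟨hh, w1, w2, lw⟩ := hres d hd
      obtain ⟨a1, a2, a3, -⟩ := hE2 G hG X y d hx
      rw [(hPI d (lt_of_lt_of_le hd he) C (hr h0 d) B (hr h d) w1 w2 lw G hG X a2).1 y a3]
      exact iw.w2' d hd G hG X y a1
    · -- w3
      intro d hd hls G0 hG0 X y hx
      obtain ⟨G, hG, rfl⟩ := hext G0 hG0
      obtain ⟨a1, a2, a3, -⟩ := hE2 G hG X y d hx
      obtain ⟨b1, b2⟩ := iw.w3 d hd hls G hG X y a1
      refine ⟨?_, ?_⟩
      · rintro ⟨i, hi, hk, hX⟩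
        refine b1 ⟨i, csub hi, hk, ?_⟩
        rw [hX, (hprm G hG i hi).1]
      · intro j hj hcj ht hs
        obtain ⟨-, hvs, -⟩ := hco j hj hcj
        refine b2 j (csub hj) hcj ht ⟨(hRR G hG _ hvs X).1 hs.1, (hRR G hG _ hvs y).1 hs.2⟩
  exact key σ le_rfl

end SE.UZ
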