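import Pool.Agent.H1.UZ.TarPC

/-! # PTX: translation of reals -/

set_option linter.unusedVariables false

open Ordinal Order Set
open scoped ZFSet

namespace SE.UZ

open SF PSR

theorem pf_PTX : T_UA → T_UC → T_AG → T_AH → T_PTX := by
  intro UA UC AG AH
  obtain ⟨-, -, -, -, uap, ual, uar, -, -⟩ := UA
  obtain ⟨uc1, -, -, -, ucF⟩ := UC
  obtain ⟨ag1, -, agx, -, -, agF⟩ := AG
  obtain ⟨ah1, -⟩ := AH
  have hF : ∀ θ, Th θ → ∀ (x : ℕ → ℕ) (n : ℕ), app θ (nS (x (nn (nS n)))) ∈ hf :=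
    fun θ hθ x n => app_mem hθ.fn (nS_mem_om _)
  have hR : ∀ θ, Th θ → ∀ x : ℕ → ℕ, Rl (hx θ x) ∧
      ∀ n : ℕ, app (hx θ x) (nS n) = app θ (nS (x n)) := by
    intro θ hθ x
    obtain ⟨h1, h2⟩ := agF (fun n => app θ (nS (x (nn n)))) (hF θ hθ x)
    refine ⟨h1, fun n => ?_⟩
    have := h2 n
    rw [nn_nS] at this
    exact this
  have hpair : ∀ θ e, Th θ → Th e → ∀ i j : ℕ,
      ZFSet.pair (app θ (nS i)) (app e (nS j)) ∈ hf := by
    intro θ e hθ he i j
    obtain ⟨h1, h2⟩ := ah1 _ _ (hR θ hθ fun _ => i).1 (hR e he fun _ => j).1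
    have h3 := h2 0
    rw [(hR θ hθ fun _ => i).2, (hR e he fun _ => j).2] at h3
    rw [← h3]
    exact app_mem h1 (nS_mem_om _)
  have hthp : ∀ θ e, Th θ → Th e → Rl (thp θ e) ∧ ∀ n : ℕ, app (thp θ e) (nS n) =
      ZFSet.pair (app θ (nS n.unpair.1)) (app e (nS n.unpair.2)) := by
    intro θ e hθ he
    obtain ⟨h1, h2⟩ := agF (fun n => ZFSet.pair (app θ (nS (nn n).unpair.1))
      (app e (nS (nn n).unpair.2))) (fun n => hpair θ e hθ he _ _)
    refine ⟨h1, fun n => ?_⟩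
    have := h2 n
    rw [nn_nS] at this
    exact this
  refine ⟨hR, ?_, fun e he => ⟨he.fn, he.inj⟩, ?_, ?_⟩
  · intro M hM θ hθ x hx'
    have h1 : Tm ZFm (fun _ v => resS om fun z => app (v 0) (app (v 1) z)) :=
      Tm.resS (g := fun _ u => app (u 1) (app (u 2) (u 0))) Tm.om
        (Tm.app (Tm.var 1) (Tm.app (Tm.var 2) (Tm.var 0)))
    have h2 := h1.1 M hM (cons θ (cons (gr x) fun _ => ∅))
      ((In.cons (In.cons (fun _ => hM.mempty) hx') hθ))
    have h3 : hx θ x = resS om fun z => app θ (app (gr x) z) := by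
      unfold hx
      refine resS_congr fun z hz => ?_
      obtain ⟨n, rfl⟩ := mem_om.1 hz
      rw [uc1, nn_nS]
    rw [h3]
    exact h2
  · intro θ e hθ he
    obtain ⟨h1, h2⟩ := hthp θ e hθ he
    have hTh : Th (thp θ e) := by
      refine ⟨h1, fun m n h => ?_⟩
      rw [h2, h2] at h
      obtain ⟨h3, h4⟩ := ZFSet.pair_injective h
      have h5 := hθ.inj _ _ h3
      have h6 := he.inj _ _ h4
      rw [← Nat.pair_unpair m, ← Nat.pair_unpair n, h5, h6]
    refine ⟨hTh, fun x y => ?_⟩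
    refine agx _ _ (hR _ hTh _).1 (ah1 _ _ (hR θ hθ x).1 (hR e he y).1).1 fun n => ?_
    rw [(hR _ hTh _).2, h2, (ah1 _ _ (hR θ hθ x).1 (hR e he y).1).2, (hR θ hθ x).2,
      (hR e he y).2]
    simp only [pr, Nat.unpair_pair]
  · intro M hM
    refine ⟨fun θ e hθ he => ?_, fun x y hx' hy' => ?_⟩
    · have h1 : Tm ZFm (fun _ v => resS om fun z =>
          ZFSet.pair (app (v 0) (nS (nn z).unpair.1)) (app (v 1) (nS (nn z).unpair.2))) :=
        Tm.resS (g := fun _ u => ZFSet.pair (app (u 1) (nS (nn (u 0)).unpair.1))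
          (app (u 2) (nS (nn (u 0)).unpair.2))) Tm.om
          (Tm.pair (Tm.app (Tm.var 1) ual) (Tm.app (Tm.var 2) uar))
      exact h1.1 M hM (cons θ (cons e fun _ => ∅))
        ((In.cons (In.cons (fun _ => hM.mempty) he) hθ))
    · refine ucF (fun _ u => nS (Nat.pair (nn (app (u 1) (u 0))) (nn (app (u 2) (u 0)))))
        (Tm.at2 (F := fun _ a b => nS (Nat.pair (nn a) (nn b))) uap
          (Tm.app (Tm.var 1) (Tm.var 0)) (Tm.app (Tm.var 2) (Tm.var 0))) M hM
        (cons (gr x) (cons (gr y) fun _ => ∅))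
        (In.cons (In.cons (fun _ => hM.mempty) hy') hx') (pr x y) ?_
      intro n
      show nS (Nat.pair (nn (app (gr x) (nS n))) (nn (app (gr y) (nS n)))) = nS (pr x y n)
      rw [uc1, uc1, nn_nS, nn_nS]
      rfl

end SE.UZ
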