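import Pool.Agent.H72.UZ.TarZ
import Pool.Agent.H45.UZ.TarP

/-! # Q6: promises are never decided, all other reals of this form are decided -/

set_option linter.unusedVariables false

open Ordinal Order Set
open scoped ZFSet

namespace SE.UZ

open SF

theorem Q6.subset_total {κ ξ η : V} (h : IsOrd κ) (hξ : ξ ∈ κ) (hη : η ∈ κ) : ξ ⊆ η ∨ η ⊆ ξ := by
  obtain ⟨α, rfl⟩ := h
  obtain ⟨a, -, rfl⟩ := Ordinal.mem_toZFSet_iff.1 hξ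
  obtain ⟨c, -, rfl⟩ := Ordinal.mem_toZFSet_iff.1 hη
  rcases le_total a c with h | h
  · exact Or.inl (Ordinal.toZFSet_subset_toZFSet_iff.2 h)
  · exact Or.inr (Ordinal.toZFSet_subset_toZFSet_iff.2 h)

theorem pf_Q6 : T_Q3 → T_PWE → T_PW2 → T_L4 → T_PHA → T_QRN → T_RH → T_AH → T_BL → T_W0 → T_LL →
    T_Q6 := by
  intro Q3 PWE PW2 L4 PHA QRN RH AH BL W0 LL D κ b am ok F Λ G hC v hv hvR
  have DO : D.Ok := am.ok
  obtain ⟨ch, hun, hΛH, csΛ, hreal, hmon, hW, hEnu, huni, hdct, hlast⟩ :=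
    Q3 D κ b am ok F Λ G hC _ rfl
  set C := resS κ (fun ξ => tK (app F ξ) ξ) with hCdef
  have hNH : ∀ x ∈ D.H, D.N x := fun x hx => DO.zfc.trans _ DO.hN _ hx
  have nΛ : D.N Λ := hNH _ hΛH
  have hG : D.Gn Λ G := hC.g
  obtain ⟨RH1, -⟩ := RH D κ b am ok
  obtain ⟨pw2, -⟩ := PW2 D κ am b ok
  -- the context
  have hctx : ∀ e : Ordinal.{0}, D.N e.toZFSet → Ctx D κ b e := fun e he => ⟨am, ok, he⟩
  -- the real is not of the form `⟨k_0, ⟨a, x⟩⟩`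
  have hkc : ∀ e : ℕ, Rl (kc e) := fun e => (AH.2.2.2.1 e).1
  have hinj : ∀ w, Rl w → ∀ e e' w', Rl w' → prl (kc e) w = prl (kc e') w' → e = e' ∧ w = w' := by
    intro w hw e e' w' hw' h
    obtain ⟨h1, h2⟩ := AH.2.1 _ _ _ _ (hkc e) hw (hkc e') hw' h
    exact ⟨AH.2.2.2.2.1 e e' h1, h2⟩
  have hform : ∀ a x, Rl a → Rl x → prl (kc 1) v ≠ prl (kc 0) (prl a x) := by
    intro a x ha hx h
    have := (hinj v hvR 1 0 _ (AH.1 a x ha hx).1 h).1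
    exact absurd this (by norm_num)
  -- objects
  have hObj : ∀ B ∈ b.Ob, b.u B ⊆ Λ → D.N (b.u B) ∧ Cld D.L (b.u B) ∧ Tr (b.u B) ∧
      D.Gn (b.u B) (gs G (b.u B)) := by
    intro B hB hs
    have cs := ok.cs B hB
    have n := hNH _ cs.h
    have tr : Tr (b.u B) := fun i hi => (cs.c i hi).2
    exact ⟨n, cs.c, tr, ((BL D DO Λ G nΛ csΛ.c hG).2 _ n hs tr).1⟩
  -- transfer of entries
  have hTr : ∀ B B' h σ, B ∈ b.Ob → B' ∈ b.Ob → b.u B ⊆ b.u B' → b.u B' ⊆ Λ →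
      His D (b.u B) h σ → ∀ X y e, (Ent h (gs G (b.u B')) X y e ↔ Ent h G X y e) ∧
        (Ent h G X y e → RR D (b.u B) G X ∧ RR D (b.u B) G y ∧ e < σ ∧ D.N e.toZFSet) := by
    intro B B' h σ hB hB' hs hs' hh X y e
    obtain ⟨n', c', t', g'⟩ := hObj B' hB' hs'
    obtain ⟨n, c, t, g⟩ := hObj B hB (fun z hz => hs' (hs hz))
    have h1 := ((PHA D DO _ _ h σ n c nΛ csΛ.c (fun z hz => hs' (hs hz)) hh).1 G hG).1 X y e
    have h2 := ((PHA D DO _ _ h σ n c n' c' hs hh).1 _ g').1 X y e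
    have h3 : gs (gs G (b.u B')) (b.u B) = gs G (b.u B) :=
      ((BL D DO Λ G nΛ csΛ.c hG).2 _ n' hs' t').2.2.2.2.2.2 _ hs
    refine ⟨?_, h1.2⟩
    rw [h2.1, h3, ← h1.1]
  have hRR : ∀ B B', B ∈ b.Ob → B' ∈ b.Ob → b.u B ⊆ b.u B' → b.u B' ⊆ Λ →
      ∀ X, RR D (b.u B) (gs G (b.u B')) X ↔ RR D (b.u B) G X := by
    intro B B' hB hB' hs hs' X
    obtain ⟨n', c', t', g'⟩ := hObj B' hB' hs'
    have h3 : gs (gs G (b.u B')) (b.u B) = gs G (b.u B) :=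
      ((BL D DO Λ G nΛ csΛ.c hG).2 _ n' hs' t').2.2.2.2.2.2 _ hs
    unfold RR
    rw [h3]
  have hprm : ∀ B, B ∈ b.Ob → b.u B ⊆ Λ → ∀ i ∈ b.u B, prm (gs G (b.u B)) i = prm G i := by
    intro B hB hs i hi
    obtain ⟨n', c', t', g'⟩ := hObj B hB hs
    exact ((QRN D DO Λ G (b.u B) nΛ csΛ.c hG n' hs t').2.2.2.2.2.2.2.2.2.2.2.2.2.2 i hi).1
  have hpR : ∀ i ∈ Λ, Rl (prm G i) := fun i hi =>
    ((QRN D DO Λ G Λ nΛ csΛ.c hG nΛ (fun z hz => hz) (fun i hi => (csΛ.c i hi).2)).2.2.2.2.2.2.2.2.1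
      i hi).2.2
  have hCΛ : ∀ ξ ∈ κ, b.u (app C ξ) ⊆ Λ := by
    intro ξ hξ i hi
    rw [← hun]
    unfold BS.un
    rw [ZFSet.mem_sUnion]
    exact ⟨_, mem_imS.2 ⟨ξ, hξ, rfl⟩, hi⟩
  constructor
  · -- a decided real is not a promise
    rintro ⟨y, hy⟩ ⟨i, hi, hk, hvi⟩
    obtain ⟨ξ, hξ, e, hE⟩ := (hEnu _ _).1 hy
    obtain ⟨η1, hη1, hi1⟩ : ∃ η1 ∈ κ, i ∈ b.u (app C η1) := by
      rw [← hun] at hi
      unfold BS.un at hi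
      rw [ZFSet.mem_sUnion] at hi
      obtain ⟨z, hz, hiz⟩ := hi
      obtain ⟨x, hx, rfl⟩ := mem_imS.1 hz
      exact ⟨x, hx, hiz⟩
    -- common index
    obtain ⟨η, hη, hiη, hEη⟩ : ∃ η ∈ κ, i ∈ b.u (app C η) ∧
        Ent (tH (app F η) η) G (prl (kc 1) v) y e := by
      rcases Q6.subset_total am.ord hη1 hξ with hs | hs
      · have hL := (hmon η1 hη1 ξ hξ hs).2
        exact ⟨ξ, hξ, (ok.leO _ _ hL.le).2.2 hi1, hE⟩
      · have hL := (hmon ξ hξ η1 hη1 hs).2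
        have hsub := (ok.leO _ _ hL.le).2.2
        have w0 := (PWE b D _ _ _).1 (hW ξ hξ)
        have w1 := (PWE b D _ _ _).1 (hW η1 hη1)
        obtain ⟨t1, t2⟩ := hTr (app C ξ) (app C η1) _ _ w0.wo.o.o w1.wo.o.o hsub (hCΛ η1 hη1)
          w0.wo.hs (prl (kc 1) v) y e
        obtain ⟨t3, -⟩ := hTr (app C η1) (app C η1) _ _ w1.wo.o.o w1.wo.o.o (fun z hz => hz)
          (hCΛ η1 hη1) w1.wo.hs (prl (kc 1) v) y e
        obtain ⟨a1, a2, a3, a4⟩ := t2 hE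
        have hX' := (hRR (app C ξ) (app C η1) w0.wo.o.o w1.wo.o.o hsub (hCΛ η1 hη1) _).2 a1
        have h2 := (hL.e _ (hObj _ w1.wo.o.o (hCΛ η1 hη1)).2.2.2 _ hX' y e).1 ⟨t1.2 hE, a3⟩
        exact ⟨η1, hη1, hi1, t3.1 h2.1⟩
    have iw := (PWE b D _ _ _).1 (hW η hη)
    have hOb := iw.wo.o.o
    have hsΛ := hCΛ η hη
    obtain ⟨t1, t2⟩ := hTr (app C η) (app C η) _ _ hOb hOb (fun z hz => hz) hsΛ
          iw.wo.hs (prl (kc 1) v) y e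
    obtain ⟨a1, a2, a3, a4⟩ := t2 hEη
    have hE' := t1.2 hEη
    have g' := (hObj _ hOb hsΛ).2.2.2
    have hX' := (hRR (app C η) (app C η) hOb hOb (fun z hz => hz) hsΛ _).2 a1
    by_cases hls : b.Ls D (b.Wd D) e
    · refine (iw.w3 e a3 hls _ g' _ _ hE').1 ⟨i, hiη, hk, ?_⟩
      rw [hprm _ hOb hsΛ i hiη, hvi]
    · have hRg := ((iw.w2 e a3 hls _ g' _ hX').1 ⟨y, hE'⟩).2
      have hWe := pw2 (b.rho D η) e (app C η) (tH (app F η) η) a3.le (hW η hη)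
      exact (L4 D κ b e (hctx e a4) (LL D κ b e (hctx e a4)).2.1 _ _ hWe _ g' _ hX' hform).2.2 hRg
  · -- a real which is not a promise is decided
    intro hno
    obtain ⟨ξ, hξ, hxv⟩ := hreal v hv hvR
    have hw := (PWE b D _ _ _).1 (hW ξ hξ)
    obtain ⟨nC, cC, tC, gC⟩ := hObj _ hw.wo.o.o (hCΛ ξ hξ)
    have hQ := QRN D DO Λ G (b.u (app C ξ)) nΛ csΛ.c hG nC (hCΛ ξ hξ) tC
    have hX : RR D (b.u (app C ξ)) G (prl (kc 1) v) :=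
      hQ.2.2.2.2.1 _ _ (hQ.2.2.2.2.2.2.1 1) hxv
    have hsκ : insert ξ ξ ∈ κ := am.suc ξ hξ
    have hT := hC.t (insert ξ ξ) hsκ
    set T := app F (insert ξ ξ) with hTd
    have hXK : RR D (b.u (fst (app T ξ))) G (prl (kc 1) v) :=
      (hlast ξ hξ _ rfl _ _ hX hX).1
    obtain ⟨hutH, hutcs, hutm, hut1, hut2, -⟩ := W0 D κ b am ok T hT
    have hutΛ : b.ut κ T ⊆ Λ := by
      intro z hz
      rw [hC.l, ZFSet.mem_sUnion]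
      exact ⟨_, mem_imS.2 ⟨_, hsκ, rfl⟩, hz⟩
    obtain ⟨oK, wK, sK⟩ := hut1 ξ hξ
    obtain ⟨oK', wK', sK'⟩ := hut1 (insert ξ ξ) hsκ
    have hsub : b.u (tK T ξ) ⊆ b.u (tK T (insert ξ ξ)) :=
      (hut2 ξ hξ _ hsκ (fun z hz => by rw [ZFSet.mem_insert_iff]; exact Or.inr hz)).2
    have iK := (PWE b D _ _ _).1 wK
    have iK' := (PWE b D _ _ _).1 wK'
    have sKΛ : b.u (tK T ξ) ⊆ Λ := fun z hz => hutΛ (sK hz)
    have sKΛ' : b.u (tK T (insert ξ ξ)) ⊆ Λ := fun z hz => hutΛ (sK' hz)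
    have g' := (hObj _ oK.o sKΛ).2.2.2
    have g'' := (hObj _ oK'.o sKΛ').2.2.2
    have hX'' := (hRR (tK T ξ) (tK T (insert ξ ξ)) oK.o oK'.o hsub sKΛ' _).2 hXK
    have hX' := (hRR (tK T ξ) (tK T ξ) oK.o oK.o (fun z hz => hz) sKΛ _).2 hXK
    have hgg : gs (gs G (b.u (tK T (insert ξ ξ)))) (b.u (tK T ξ)) = gs G (b.u (tK T ξ)) := by
      obtain ⟨n', c', t', -⟩ := hObj _ oK'.o sKΛ'
      exact ((BL D DO Λ G nΛ csΛ.c hG).2 _ n' sKΛ' t').2.2.2.2.2.2 _ hsub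
    by_cases hd : Dcc (tH T ξ) (gs G (b.u (tK T (insert ξ ξ)))) (prl (kc 1) v)
    · obtain ⟨y, e, hE⟩ := hd
      obtain ⟨t1, -⟩ := hTr (tK T ξ) (tK T (insert ξ ξ)) _ _ oK.o oK'.o hsub sKΛ' iK.wo.hs
        (prl (kc 1) v) y e
      exact ⟨y, insert ξ ξ, hsκ, ξ, hξ, e, t1.1 hE⟩
    · have hr := (RH1 ξ hξ).2.2
      have hN := (L4 D κ b _ (hctx _ hr) (LL D κ b _ (hctx _ hr)).2.1 _ _ wK _ g' _ hX' hform).2.1
      have hP : ¬ b.Pt (fst (app T ξ)) (gs G (b.u (tK T (insert ξ ξ)))) (prl (kc 1) v) := by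
        rintro ⟨i, hi, hk, hp⟩
        have hiΛ : i ∈ Λ := sKΛ hi
        rw [hprm _ oK'.o sKΛ' i (hsub hi)] at hp
        exact hno ⟨i, hiΛ, hk, (hinj v hvR 1 1 _ (hpR i hiΛ) hp).2⟩
      obtain ⟨y, hE⟩ := hT.t2 ξ hξ _ g'' _ hX'' hd (by
        change b.Nn D (b.Wd D) (b.rho D ξ) (tK T ξ) (tH T ξ)
          (gs (gs G (b.u (tK T (insert ξ ξ)))) (b.u (tK T ξ))) (prl (kc 1) v)
        rw [hgg]
        exact hN) hP
      obtain ⟨t1, -⟩ := hTr (tK T (insert ξ ξ)) (tK T (insert ξ ξ)) _ _ oK'.o oK'.o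
        (fun z hz => hz) sKΛ' iK'.wo.hs (prl (kc 1) v) y (b.rho D ξ)
      exact ⟨y, insert ξ ξ, hsκ, insert ξ ξ, hsκ, _, t1.1 hE⟩

end SE.UZ
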